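import Mathlib

set_option autoImplicit false

namespace Pool.Agent.Results.MP_a87573_co.DistinctRoots
open Finset Polynomial
open scoped Classical

/-- `S` is an edge covering: every vertex is an endpoint of an edge of `S` -/
def Covers {V : Type} (S : Finset (Sym2 V)) : Prop := ∀ v, ∃ e ∈ S, v ∈ e

/-- the edge cover polynomial, with complex coefficients -/
noncomputable def ecp {V : Type} [Fintype V] (G : SimpleGraph V) : ℂ[X] :=
  ∑ S ∈ G.edgeFinset.powerset.filter Covers, X ^ S.card

theorem roots_bound (E W : ℂ[X]) (m : ℕ) (hW : W = (1 + X) * derivative E - (m : ℂ[X]) * E) (h0 : W ≠ 0) :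
    E.natDegree ≤ E.roots.toFinset.card + W.natDegree := by
  have h1 : E.roots ≤ E.roots.toFinset.val + W.roots := by
    rw [Multiset.le_iff_count]
    intro t
    by_cases ht : t ∈ E.roots
    · have h2 : rootMultiplicity t E - 1 ≤ rootMultiplicity t W := by
        rw [le_rootMultiplicity_iff h0, hW]
        exact dvd_sub ((pow_sub_one_dvd_derivative_of_pow_dvd (pow_rootMultiplicity_dvd E t)).mul_left _)
          (((pow_dvd_pow _ (Nat.sub_le _ _)).trans (pow_rootMultiplicity_dvd E t)).mul_left _)
      rw [Multiset.count_add, Multiset.toFinset_val, Multiset.count_dedup, if_pos ht, count_roots,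
        count_roots]
      omega
    · simp [Multiset.count_eq_zero.2 ht]
  have h2 := Multiset.card_le_card h1
  rw [Multiset.card_add, ← (IsAlgClosed.splits E).natDegree_eq_card_roots] at h2
  exact h2.trans (Nat.add_le_add_left (card_roots' W) _)

theorem result (V : Type) [Fintype V] (G : SimpleGraph V) :
    G.minDegree ≤ (ecp G).roots.toFinset.card := by
  rcases Nat.eq_zero_or_pos G.minDegree with h0 | h0
  · omega
  have hne : Nonempty V := by
    by_contra h
    rw [not_nonempty_iff] at h
    simp at h0
  obtain ⟨v0⟩ := hne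
  set m := G.edgeFinset.card with hm
  set N : ℂ[X] := ∑ S ∈ G.edgeFinset.powerset.filter (fun S => ¬ Covers S), X ^ S.card with hN
  have hE : ecp G = (1 + X) ^ m - N := by
    rw [eq_sub_iff_add_eq, ecp, hN, sum_filter_add_sum_filter_not, hm, ← prod_const (1 + X),
      prod_one_add]
    simp
  have hdm : ∀ v, G.degree v ≤ m := fun v => G.degree_le_card_edgeFinset v
  have hd : G.minDegree ≤ m := (G.minDegree_le_degree v0).trans (hdm v0)
  have hNd : N.natDegree ≤ m - G.minDegree := by
    refine natDegree_sum_le_of_forall_le _ _ fun S hS => ?_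
    obtain ⟨h1, h2⟩ := mem_filter.1 hS
    simp only [Covers, not_forall, not_exists, not_and] at h2
    obtain ⟨v, hv⟩ := h2
    have h3 : S ⊆ G.edgeFinset \ G.incidenceFinset v := by
      intro e he
      refine mem_sdiff.2 ⟨mem_powerset.1 h1 he, fun h => hv e he ?_⟩
      exact (G.mem_incidenceFinset v e |>.1 h).2
    have h4 := card_le_card h3
    rw [card_sdiff_of_subset (G.incidenceFinset_subset v), G.card_incidenceFinset_eq_degree] at h4
    have := G.minDegree_le_degree v
    rw [natDegree_X_pow]
    omega
  have hp : ((1 + X : ℂ[X]) ^ m).natDegree = m := by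
    rw [natDegree_pow, add_comm, ← C_1, natDegree_X_add_C, mul_one]
  have hEd : (ecp G).natDegree = m := by
    rw [hE, natDegree_sub_eq_left_of_natDegree_lt (by omega), hp]
  have hE0 : ecp G ≠ 0 := by
    intro h
    rw [h, natDegree_zero] at hEd
    omega
  have hroot : (ecp G).IsRoot 0 := by
    rw [IsRoot, ecp, eval_finsetSum]
    refine sum_eq_zero fun S hS => ?_
    obtain ⟨e, he, -⟩ := (mem_filter.1 hS).2 v0
    simp [(card_pos.2 ⟨e, he⟩).ne']
  have hW : (1 + X) * derivative (ecp G) - (m : ℂ[X]) * ecp G =
      (m : ℂ[X]) * N - (1 + X) * derivative N := by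
    obtain ⟨k, hk⟩ : ∃ k, m = k + 1 := ⟨m - 1, by omega⟩
    rw [hE, hk]
    simp only [derivative_sub, derivative_pow_succ, derivative_add, derivative_one, derivative_X,
      map_add, map_natCast, map_one]
    push_cast
    ring
  have hW0 : (1 + X) * derivative (ecp G) - (m : ℂ[X]) * ecp G ≠ 0 := by
    intro h
    have hm0 : (m : ℂ[X]) ≠ 0 := Nat.cast_ne_zero.2 (by omega)
    have h1 := congrArg (rootMultiplicity 0) (sub_eq_zero.1 h)
    have h2 := (rootMultiplicity_pos hE0).2 hroot
    rw [rootMultiplicity_mul (by rw [sub_eq_zero.1 h]; exact mul_ne_zero hm0 hE0),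
      rootMultiplicity_mul (mul_ne_zero hm0 hE0), derivative_rootMultiplicity_of_root hroot,
      rootMultiplicity_eq_zero (p := 1 + X) (by simp)] at h1
    omega
  have h1 := roots_bound _ _ m rfl hW0
  have h2 : ((m : ℂ[X]) * N - (1 + X) * derivative N).natDegree ≤ m - G.minDegree := by
    refine (natDegree_sub_le _ _).trans (max_le ?_ ?_)
    · exact (natDegree_mul_le.trans (by simp)).trans hNd
    · by_cases h : N.natDegree = 0
      · simp [derivative_of_natDegree_zero h]
      · have h3 := natDegree_derivative_le N
        have h4 : (1 + X : ℂ[X]).natDegree = 1 := by rw [add_comm, ← C_1, natDegree_X_add_C]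
        have h5 := natDegree_mul_le (p := 1 + X) (q := derivative N)
        omega
  rw [hW, hEd] at h1
  omega

end Pool.Agent.Results.MP_a87573_co.DistinctRoots
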